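import Pool.Agent.H74R2.WT.Stmts

set_option autoImplicit false

open MeasureTheory Set

namespace H74R2.WT

/-- a line is a null set -/
lemma E1_line (a b c : ℝ) (h : a ≠ 0 ∨ b ≠ 0) :
    (volume : Measure ℂ) {z : ℂ | a * z.re + b * z.im = c} = 0 := by
  rcases Set.eq_empty_or_nonempty {z : ℂ | a * z.re + b * z.im = c} with he | ⟨z0, hz0⟩
  · rw [he, measure_empty]
  · let f : ℂ →ₗ[ℝ] ℝ := a • Complex.reLm + b • Complex.imLm
    have hf : ∀ z, f z = a * z.re + b * z.im := fun z => by simp [f]
    have hker : (LinearMap.ker f) ≠ ⊤ := by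
      intro htop
      have h0 : ∀ z, f z = 0 := fun z => by
        have : z ∈ LinearMap.ker f := by rw [htop]; trivial
        exact this
      have h1 := h0 1
      have h2 := h0 Complex.I
      rw [hf] at h1 h2
      simp at h1 h2
      rcases h with h | h
      · exact h h1
      · exact h h2
    have hnull : (volume : Measure ℂ) (LinearMap.ker f : Set ℂ) = 0 :=
      Measure.addHaar_submodule _ _ hker
    have heq : {z : ℂ | a * z.re + b * z.im = c} = (fun z => z + (-z0)) ⁻¹' (LinearMap.ker f : Set ℂ) := by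
      ext z
      simp only [mem_ofPred_eq, mem_preimage, SetLike.mem_coe, LinearMap.mem_ker, map_add, map_neg]
      rw [hf, hf]
      have h3 : a * z0.re + b * z0.im = c := hz0
      rw [h3]
      constructor
      · intro h4; rw [h4]; ring
      · intro h4; linarith
    rw [heq, measure_preimage_add_right]
    exact hnull

lemma E1_mp : MeasurePreserving (fun q : ℝ × ℝ => (⟨q.2, q.1⟩ : ℂ)) volume volume := by
  have h1 := (Complex.volume_preserving_equiv_real_prod).symm
  have h2 : MeasurePreserving (Prod.swap : ℝ × ℝ → ℝ × ℝ) volume volume := Measure.measurePreserving_swap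
  have h3 := h1.comp h2
  exact h3

lemma E1_set {K : Subfield ℝ} (t : HT K) : MeasurableSet t.set := by
  have : IsOpen t.set := by
    unfold HT.set
    apply IsOpen.inter
    · apply IsOpen.inter
      · exact isOpen_lt continuous_const Complex.continuous_im
      · exact isOpen_lt Complex.continuous_im continuous_const
    · apply IsOpen.inter
      · exact isOpen_lt (by fun_prop) Complex.continuous_re
      · exact isOpen_lt Complex.continuous_re (by fun_prop)
  exact this.measurableSet

lemma E1_ind {G : Set ℂ} (h : MeasurableSet G) : Measurable (ind G) := by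
  classical
  unfold ind
  exact Measurable.ite h measurable_const measurable_const

lemma E1_sum {K : Subfield ℝ} (ts : List (HT K)) :
    Measurable (fun z : ℂ => (ts.map (fun t => ind t.set z)).sum) := by
  induction ts with
  | nil => simp
  | cons t ts ih =>
    simp only [List.map_cons, List.sum_cons]
    exact (E1_ind (E1_set t)).add ih

/-- task E1 -/
theorem t_E1 : T_E1 := by
  intro hD K G hG
  obtain ⟨ts, Y, hY⟩ := hD K G hG
  refine ⟨ts, ?_⟩
  obtain ⟨L, hL, hfr⟩ := hG.lines
  have hfr0 : (volume : Measure ℂ) (frontier G) = 0 := by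
    have h1 : {z : ℂ | ∃ q ∈ L, q.1 * z.re + q.2.1 * z.im = q.2.2} =
        ⋃ q ∈ L, {z : ℂ | q.1 * z.re + q.2.1 * z.im = q.2.2} := by
      ext z; simp
    rw [h1] at hfr
    refine measure_mono_null hfr ?_
    refine (measure_biUnion_null_iff (I := (L : Set (ℝ × ℝ × ℝ)))
      (s := fun q => {z : ℂ | q.1 * z.re + q.2.1 * z.im = q.2.2}) (Finset.countable_toSet L)).2 ?_
    intro q hq
    exact E1_line _ _ _ (hL q hq).2.2
  have hfrm : MeasurableSet (frontier G) := isClosed_frontier.measurableSet
  set B : Set ℂ := {z | ind (interior G) z ≠ (ts.map (fun t => ind t.set z)).sum} with hB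
  have hBm : MeasurableSet B := by
    have : B = {z | ind (interior G) z = (ts.map (fun t => ind t.set z)).sum}ᶜ := by
      ext z; simp [hB]
    rw [this]
    exact (measurableSet_eq_fun (E1_ind isOpen_interior.measurableSet) (E1_sum ts)).compl
  have hind : ∀ z, z ∉ frontier G → ind G z = ind (interior G) z := by
    intro z hz
    unfold ind
    by_cases h1 : z ∈ G
    · have h2 : z ∈ interior G := by
        by_contra h3
        exact hz ⟨subset_closure h1, h3⟩
      rw [if_pos h1, if_pos h2]
    · have h2 : z ∉ interior G := fun h3 => h1 (interior_subset h3)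
      rw [if_neg h1, if_neg h2]
  have hmp := E1_mp
  have hfr1 : (volume : Measure (ℝ × ℝ)) ((fun q : ℝ × ℝ => (⟨q.2, q.1⟩ : ℂ)) ⁻¹' frontier G) = 0 := by
    rw [hmp.measure_preimage hfrm.nullMeasurableSet]
    exact hfr0
  have hfr2 := Measure.measure_ae_null_of_prod_null (μ := (volume : Measure ℝ)) (ν := (volume : Measure ℝ)) hfr1
  have hB0 : (volume : Measure ℂ) B = 0 := by
    rw [← hmp.measure_preimage hBm.nullMeasurableSet]
    refine (Measure.measure_prod_null (μ := (volume : Measure ℝ)) (ν := (volume : Measure ℝ))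
      (hmp.measurable hBm)).2 ?_
    have hYn : ∀ᵐ y : ℝ, y ∉ Y := by
      have : (volume : Measure ℝ) (Y : Set ℝ) = 0 := (Finset.countable_toSet Y).measure_zero _
      exact measure_eq_zero_iff_ae_notMem.mp this
    filter_upwards [hfr2, hYn] with y h1 h2
    have hsub : Prod.mk y ⁻¹' ((fun q : ℝ × ℝ => (⟨q.2, q.1⟩ : ℂ)) ⁻¹' B) ⊆
        {x : ℝ | ind G ⟨x, y⟩ ≠ (ts.map (fun t => ind t.set ⟨x, y⟩)).sum} ∪
          Prod.mk y ⁻¹' ((fun q : ℝ × ℝ => (⟨q.2, q.1⟩ : ℂ)) ⁻¹' frontier G) := by
      intro x hx
      by_cases hf : (⟨x, y⟩ : ℂ) ∈ frontier G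
      · exact Or.inr hf
      · left
        have h3 : (⟨x, y⟩ : ℂ) ∈ B := hx
        have h4 := hind ⟨x, y⟩ hf
        rw [mem_ofPred_eq, h4]
        exact h3
    refine measure_mono_null hsub (measure_union_null ?_ h1)
    exact (hY y h2).countable.measure_zero _
  have h5 := measure_eq_zero_iff_ae_notMem.mp hfr0
  have h6 := measure_eq_zero_iff_ae_notMem.mp hB0
  filter_upwards [h5, h6] with z h7 h8
  rw [hind z h7]
  by_contra h9
  exact h8 h9

end H74R2.WT
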